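import Mathlib

/-!
# Project EM: the Jacobian criterion (GENC)
-/

set_option autoImplicit false

namespace Pool.Agent.Y689.EM

open MvPolynomial

/-- The chain rule for a derivation of an algebra generated by `x`. -/
theorem der_exp {F B Ω : Type} [CommRing F] [CommRing B] [Algebra F B] [AddCommGroup Ω]
    [Module B Ω] [Module F Ω] [IsScalarTower F B Ω] (D : Derivation F B Ω) {v : ℕ}
    (x : Fin v → B) (p : MvPolynomial (Fin v) F) :
    D (aeval x p) = ∑ j, aeval x (pderiv j p) • D (x j) := by
  classical
  induction p using MvPolynomial.induction_on with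
  | C a => simp
  | add p q hp hq => simp only [map_add, hp, hq, add_smul, Finset.sum_add_distrib]
  | mul_X p n hp =>
    rw [map_mul, aeval_X, D.leibniz, hp, Finset.smul_sum]
    have h1 : ∀ j, aeval x (pderiv j (p * X n)) • D (x j) =
        (if j = n then aeval x p • D (x j) else 0) + x n • aeval x (pderiv j p) • D (x j) := by
      intro j
      rw [pderiv_mul, map_add, add_smul, map_mul, map_mul, aeval_X, pderiv_X, mul_comm, mul_smul,
        add_comm]
      congr 1
      by_cases h : j = n
      · subst h
        simp
      · rw [if_neg h, Pi.single_eq_of_ne (Ne.symm h), map_zero, mul_zero, zero_smul]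
    rw [Finset.sum_congr rfl fun j _ => h1 j, Finset.sum_add_distrib, Finset.sum_ite_eq']
    simp

/-- The Jacobian criterion: the algebra is unramified. -/
theorem unram {F B : Type} [Field F] [CommRing B] [Algebra F B] {v : ℕ} (x : Fin v → B)
    (hs : Function.Surjective (aeval (R := F) x)) (f : Fin v → MvPolynomial (Fin v) F)
    (hf : ∀ i, aeval x (f i) = 0)
    (hJ : IsUnit (Matrix.of fun i j => aeval x (pderiv j (f i))).det) :
    Algebra.FormallyUnramified F B := by
  set J : Matrix (Fin v) (Fin v) B := Matrix.of fun i j => aeval x (pderiv j (f i)) with hJd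
  let D := KaehlerDifferential.D F B
  have hrel : ∀ i, ∑ j, J i j • D (x j) = 0 := by
    intro i
    have := der_exp D x (f i)
    rw [hf, map_zero] at this
    rw [this]
    rfl
  have hX : ∀ l, D (x l) = 0 := by
    intro l
    have h2 : ∑ i, J.adjugate l i • ∑ j, J i j • D (x j) = 0 := by
      apply Finset.sum_eq_zero
      intro i _
      rw [hrel i, smul_zero]
    have h3 : ∑ i, J.adjugate l i • ∑ j, J i j • D (x j) = ∑ j, (J.adjugate * J) l j • D (x j) := by
      simp_rw [Matrix.mul_apply, Finset.sum_smul, Finset.smul_sum, smul_smul]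
      rw [Finset.sum_comm]
    rw [h3, Matrix.adjugate_mul] at h2
    have h4 : ∑ j, (J.det • (1 : Matrix (Fin v) (Fin v) B)) l j • D (x j) = J.det • D (x l) := by
      rw [Finset.sum_eq_single l]
      · simp
      · intro j _ hj
        rw [Matrix.smul_apply, Matrix.one_apply_ne hj.symm, smul_zero, zero_smul]
      · simp
    rw [h4] at h2
    obtain ⟨u, hu⟩ := hJ
    rw [← hu] at h2
    have : (↑u⁻¹ : B) • ((u : B) • D (x l)) = 0 := by rw [h2, smul_zero]
    rwa [smul_smul, Units.inv_mul, one_smul] at this
  have hD : ∀ b, D b = 0 := by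
    intro b
    obtain ⟨p, rfl⟩ := hs b
    rw [der_exp]
    apply Finset.sum_eq_zero
    intro j _
    rw [hX, smul_zero]
  have hΩ : Subsingleton (Ω[B⁄F]) := by
    have h := KaehlerDifferential.span_range_derivation F B
    have h1 : (⊤ : Submodule B (Ω[B⁄F])) = ⊥ := by
      rw [← h, eq_bot_iff, Submodule.span_le]
      rintro _ ⟨b, rfl⟩
      simpa using hD b
    exact (Submodule.subsingleton_iff B).1 (subsingleton_of_bot_eq_top h1.symm)
  exact ⟨hΩ⟩

theorem genc0 (F : Type) [Field F] (v : ℕ) (f : Fin v → MvPolynomial (Fin v) F)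
    (hu : IsUnit (Ideal.Quotient.mk (Ideal.span (Set.range f))
      (Matrix.of fun i j => MvPolynomial.pderiv j (f i)).det)) :
    IsReduced (MvPolynomial (Fin v) F ⧸ Ideal.span (Set.range f)) := by
  have hal : ∀ p : MvPolynomial (Fin v) F,
      aeval (fun i => Ideal.Quotient.mk (Ideal.span (Set.range f)) (X i)) p =
        Ideal.Quotient.mk (Ideal.span (Set.range f)) p := by
    intro p
    have h : aeval (fun i => Ideal.Quotient.mk (Ideal.span (Set.range f)) (X i)) =
        Ideal.Quotient.mkₐ F (Ideal.span (Set.range f)) := by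
      apply MvPolynomial.algHom_ext
      intro i
      rw [aeval_X]
      rfl
    rw [h]
    rfl
  have h1 : Algebra.FormallyUnramified F (MvPolynomial (Fin v) F ⧸ Ideal.span (Set.range f)) := by
    apply unram (fun i => Ideal.Quotient.mk (Ideal.span (Set.range f)) (X i)) _ f
    · intro i
      rw [hal]
      exact Ideal.Quotient.eq_zero_iff_mem.2 (Ideal.subset_span ⟨i, rfl⟩)
    · rw [RingHom.map_det] at hu
      convert hu using 2
      ext i j
      simp [hal]
    · intro b
      obtain ⟨p, rfl⟩ := Ideal.Quotient.mk_surjective b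
      exact ⟨p, hal p⟩
  exact Algebra.FormallyUnramified.isReduced_of_field F _

end Pool.Agent.Y689.EM
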