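import Pool.Agent.Y234.EM.Stm
import Pool.Agent.Y689.EM.GenC0

/-!
# Project EM: GENC
-/

set_option autoImplicit false

namespace Pool.Agent.Y689.EM

open Pool.Agent.Y234.EM

theorem genc : S_GENC := fun F _ v f h => genc0 F v f h

end Pool.Agent.Y689.EM
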